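import Pool.Agent.U307.RAD.Stm

/-!
# Project RAD, package LIN: linearity, continuity, the limit `P → ∞`

The lemmas on `TS` are adapted from `Pool/Agent/N892/BW/RTT_A.lean`.
-/

set_option autoImplicit false

open MeasureTheory Filter Topology Complex Set
open scoped ComplexConjugate FourierTransform SchwartzMap

namespace Pool.Agent.U99.RAD

open Pool.Agent.U307.RAD

theorem inner_eq (x ξ : ℂ) : (inner ℝ x ξ : ℝ) = x.re * ξ.re + x.im * ξ.im := by
  rw [Complex.inner]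
  simp
  ring

theorem Ft_eq (f : 𝓢(ℂ, ℂ)) (ξ : ℂ) : (∫ x : ℂ, Complex.exp (-(2 * (Real.pi : ℂ) * Complex.I *
    (((x.re * ξ.re + x.im * ξ.im : ℝ)) : ℂ))) * f x) = (𝓕 f : 𝓢(ℂ, ℂ)) ξ := by
  rw [SchwartzMap.fourier_coe, Real.fourier_eq']
  refine integral_congr_ae (Eventually.of_forall fun x => ?_)
  simp only [smul_eq_mul]
  rw [inner_eq]
  congr 2
  push_cast
  ring

/-- the character -/
noncomputable def EE (x ξ : ℂ) : ℂ :=
  Complex.exp (2 * (Real.pi : ℂ) * Complex.I * ((x.re * ξ.re + x.im * ξ.im : ℝ) : ℂ))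

theorem norm_EE (x ξ : ℂ) : ‖EE x ξ‖ = 1 := by
  unfold EE
  rw [Complex.norm_exp]
  have : (2 * (Real.pi : ℂ) * I * ((x.re * ξ.re + x.im * ξ.im : ℝ) : ℂ)).re = 0 := by
    simp only [Complex.mul_re, Complex.mul_im, Complex.ofReal_re, Complex.ofReal_im,
      Complex.I_re, Complex.I_im, Complex.re_ofNat, Complex.im_ofNat]
    ring
  rw [this, Real.exp_zero]

theorem EE_cont : Continuous fun p : ℂ × ℂ => EE p.1 p.2 := by
  unfold EE
  fun_prop

theorem TS_eq (n : ℕ) (f : 𝓢(ℂ, ℂ)) (z : ℂ) :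
    TS n f z = ∫ ξ : ℂ, EE z ξ * ((starRingEnd ℂ ξ / ξ) ^ n * (𝓕 f : 𝓢(ℂ, ℂ)) ξ) := by
  unfold TS EE
  refine integral_congr_ae (Eventually.of_forall fun ξ => ?_)
  simp only
  rw [Ft_eq]

theorem sym_norm (n : ℕ) (ξ : ℂ) : ‖(starRingEnd ℂ ξ / ξ) ^ n‖ ≤ 1 := by
  rw [norm_pow]
  refine pow_le_one₀ (norm_nonneg _) ?_
  rw [norm_div, RCLike.norm_conj]
  exact div_self_le_one _

theorem sym_meas (n : ℕ) : Measurable fun ξ : ℂ => (starRingEnd ℂ ξ / ξ) ^ n :=
  ((Complex.continuous_conj.measurable).div measurable_id).pow_const n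

theorem int_aux (n : ℕ) (f : 𝓢(ℂ, ℂ)) (z : ℂ) :
    Integrable fun ξ : ℂ => EE z ξ * ((starRingEnd ℂ ξ / ξ) ^ n * (𝓕 f : 𝓢(ℂ, ℂ)) ξ) := by
  have h1 : Integrable fun ξ : ℂ => (𝓕 f : 𝓢(ℂ, ℂ)) ξ := (𝓕 f : 𝓢(ℂ, ℂ)).integrable
  refine h1.norm.mono' ?_ (Eventually.of_forall fun ξ => ?_)
  · exact ((EE_cont.comp (by fun_prop : Continuous fun ξ : ℂ => (z, ξ))).aestronglyMeasurable).mul
      ((sym_meas n).aestronglyMeasurable.mul (𝓕 f : 𝓢(ℂ, ℂ)).continuous.aestronglyMeasurable)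
  · rw [norm_mul, norm_mul, norm_EE, one_mul]
    exact mul_le_of_le_one_left (norm_nonneg _) (sym_norm n ξ)

theorem TS_add (n : ℕ) (f g : 𝓢(ℂ, ℂ)) (z : ℂ) : TS n (f + g) z = TS n f z + TS n g z := by
  rw [TS_eq, TS_eq, TS_eq, ← integral_add (int_aux n f z) (int_aux n g z)]
  refine integral_congr_ae (Eventually.of_forall fun ξ => ?_)
  simp only
  have h : (𝓕 (f + g) : 𝓢(ℂ, ℂ)) = 𝓕 f + 𝓕 g := FourierTransform.fourier_add f g
  rw [h, add_apply]
  ring

theorem TS_smul (n : ℕ) (c : ℂ) (f : 𝓢(ℂ, ℂ)) (z : ℂ) : TS n (c • f) z = c * TS n f z := by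
  rw [TS_eq, TS_eq, ← integral_const_mul]
  refine integral_congr_ae (Eventually.of_forall fun ξ => ?_)
  simp only
  have h : (𝓕 (c • f) : 𝓢(ℂ, ℂ)) = c • 𝓕 f := FourierTransform.fourier_smul c f
  rw [h, smul_apply, smul_eq_mul]
  ring

theorem TS_cont (n : ℕ) (f : 𝓢(ℂ, ℂ)) : Continuous (TS n f) := by
  have heq : TS n f = fun z => ∫ ξ : ℂ, EE z ξ * ((starRingEnd ℂ ξ / ξ) ^ n *
      (𝓕 f : 𝓢(ℂ, ℂ)) ξ) := funext fun z => TS_eq n f z
  rw [heq]
  have h1 : Integrable fun ξ : ℂ => (𝓕 f : 𝓢(ℂ, ℂ)) ξ := (𝓕 f : 𝓢(ℂ, ℂ)).integrable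
  refine continuous_of_dominated (bound := fun ξ => ‖(𝓕 f : 𝓢(ℂ, ℂ)) ξ‖) (fun z => ?_)
    (fun z => Eventually.of_forall fun ξ => ?_) h1.norm (Eventually.of_forall fun ξ => ?_)
  · exact (int_aux n f z).aestronglyMeasurable
  · rw [norm_mul, norm_mul, norm_EE, one_mul]
    exact mul_le_of_le_one_left (norm_nonneg _) (sym_norm n ξ)
  · exact (EE_cont.comp (by fun_prop : Continuous fun z : ℂ => (z, ξ))).mul continuous_const


theorem ee_cont : Continuous ee := by
  unfold ee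
  fun_prop

theorem integrand_cont (n m : ℕ) (f : 𝓢(ℂ, ℂ)) (z : ℂ) :
    Continuous fun t : ℝ => ee t ^ m * TS n f (ee t * z) :=
  (ee_cont.pow m).mul ((TS_cont n f).comp (ee_cont.mul continuous_const))

theorem AA_add (n l : ℕ) (f g : 𝓢(ℂ, ℂ)) (z : ℂ) : AA n l (f + g) z = AA n l f z + AA n l g z := by
  unfold AA PP
  rw [← intervalIntegral.integral_add
    ((integrand_cont n (2 * n + l) f z).intervalIntegrable _ _)
    ((integrand_cont n (2 * n + l) g z).intervalIntegrable _ _)]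
  refine intervalIntegral.integral_congr fun t _ => ?_
  rw [TS_add]
  ring

theorem AA_smul (n l : ℕ) (c : ℂ) (f : 𝓢(ℂ, ℂ)) (z : ℂ) : AA n l (c • f) z = c * AA n l f z := by
  unfold AA PP
  rw [← intervalIntegral.integral_const_mul]
  refine intervalIntegral.integral_congr fun t _ => ?_
  rw [TS_smul]
  ring

theorem AA_cont (n l : ℕ) (f : 𝓢(ℂ, ℂ)) : Continuous (AA n l f) := by
  have h : Continuous (Function.uncurry fun (z : ℂ) (t : ℝ) =>
      ee t ^ (2 * n + l) * TS n f (ee t * z)) := by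
    have h1 : Continuous fun q : ℂ × ℝ => ee q.2 := ee_cont.comp continuous_snd
    exact (h1.pow _).mul ((TS_cont n f).comp (h1.mul continuous_fst))
  exact intervalIntegral.continuous_parametric_intervalIntegral_of_continuous' h 0 1

theorem t_LIN : S_LIN := fun n l => ⟨AA_add n l, AA_smul n l, AA_cont n l⟩

theorem uu_cont (n l : ℕ) : Continuous (uu n l) := by
  unfold uu
  fun_prop

theorem t_LIM : S_LIM := by
  intro n l
  unfold KP KI
  refine Tendsto.const_add 1 ?_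
  have hq : ∫ r in (0 : ℝ)..1, |qq n l r| = ∫ r in (0 : ℝ)..1, |uu n l r| * r := by
    refine intervalIntegral.integral_congr fun r hr => ?_
    rw [uIcc_of_le zero_le_one] at hr
    unfold qq
    rw [abs_mul, abs_of_nonneg hr.1, mul_comm]
  rw [hq]
  refine intervalIntegral.tendsto_integral_filter_of_dominated_convergence
    (fun r => |uu n l r|) ?_ ?_ ?_ ?_
  · refine Eventually.of_forall fun P => ?_
    have h1 : Measurable fun r : ℝ => |uu n l r| * r ^ (1 - 2 / P) :=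
      (uu_cont n l).abs.measurable.mul (measurable_id.pow_const _)
    exact h1.aestronglyMeasurable
  · filter_upwards [eventually_gt_atTop (2 : ℝ)] with P hP
    refine Eventually.of_forall fun r hr => ?_
    rw [uIoc_of_le zero_le_one] at hr
    have h0 : 0 ≤ 1 - 2 / P := by
      have : 2 / P ≤ 1 := (div_le_one (by linarith)).2 hP.le
      linarith
    have h1 : r ^ (1 - 2 / P) ≤ 1 := Real.rpow_le_one hr.1.le hr.2 h0
    have h2 : 0 ≤ r ^ (1 - 2 / P) := Real.rpow_nonneg hr.1.le _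
    rw [Real.norm_eq_abs, abs_mul, abs_abs, abs_of_nonneg h2]
    exact mul_le_of_le_one_right (abs_nonneg _) h1
  · exact (uu_cont n l).abs.intervalIntegrable _ _
  · refine Eventually.of_forall fun r hr => ?_
    rw [uIoc_of_le zero_le_one] at hr
    refine Tendsto.const_mul _ ?_
    have h1 : Tendsto (fun P : ℝ => 1 - 2 / P) atTop (𝓝 1) := by
      have h2 : Tendsto (fun P : ℝ => 2 / P) atTop (𝓝 0) :=
        tendsto_const_nhds.div_atTop tendsto_id
      simpa using h2.const_sub 1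
    have h3 := (Real.continuousAt_const_rpow hr.1.ne').tendsto.comp h1
    simpa [Function.comp_def] using h3

end Pool.Agent.U99.RAD
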